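import Mathlib
import Pool.Agent.Lib.MP_d807e3_co.BD.PL

/-!
Distinct distances between points on two lines that are not parallel, when the points on the
first line lie in a set of bounded doubling (of moderate size) and the points on the second
line are arbitrary. The number of distances is then as large as in the best known construction,
up to a factor `n ^ ε`.
-/

namespace Pool.Agent.Results.MP_d807e3_co.BoundedDoubling

open Pool.Agent.MP_d807e3_co
open scoped Pointwise

/-- For all `K` and `ε > 0` there is `c > 0` such that the following holds. Let `a + ℝ u` and
`b + ℝ v` be two lines that are not parallel, let `T` be a finite subset of the first line with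
`|T + T| ≤ K |T|`, let `P` be any finite set of points and `Q` any finite subset of the second
line, and let `m` be the number of points in `P ∩ T`. Then the number of distinct distances
between `P` and `Q` is at least `c * m * min m |Q| / |T| ^ ε`. -/
theorem result (K ε : ℝ) (hε : 0 < ε) :
    ∃ c : ℝ, 0 < c ∧ ∀ (a u b v : Plane) (P Q T : Finset Plane),
      LinearIndependent ℝ ![u, v] →
      (∀ p ∈ T, ∃ t : ℝ, p = a + t • u) → (∀ q ∈ Q, ∃ t : ℝ, q = b + t • v) →
      ((T + T).card : ℝ) ≤ K * T.card →
      c * ((P ∩ T).card : ℝ) * min ((P ∩ T).card : ℝ) (Q.card : ℝ) ≤
        (T.card : ℝ) ^ ε * ((distances P Q).card : ℝ) :=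
  Pool.Agent.BD.doubling_line K hε

end Pool.Agent.Results.MP_d807e3_co.BoundedDoubling
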