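import Mathlib
import Pool.Agent.Lib.MP_d807e3_co.OneSidedPlane

/-!
Distinct distances between points on two lines that are neither parallel nor orthogonal, when
the points on the first line have small doubling and the points on the second line are
arbitrary. For `n` points on each line this is at least a constant times `n ^ (8 / 5)`.
-/

namespace Pool.Agent.Results.MP_d807e3_co.OneSided

open Pool.Agent.MP_d807e3_co
open scoped Pointwise

/-- Let `P` and `Q` be finite sets of points on the lines `a + ℝ u` and `b + ℝ v`, which are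
neither parallel nor orthogonal, with `|P + P| ≤ K |P|`. Then
`|P| min (|P|, |Q| ^ (3 / 5)) ≤ 2 ^ 19 K ^ 6 D`, where `D` is the number of distinct distances
between `P` and `Q`. -/
theorem result (a u b v : Plane) (P Q : Finset Plane) (K : ℝ)
    (huv : LinearIndependent ℝ ![u, v]) (horth : (inner ℝ u v : ℝ) ≠ 0)
    (hP : ∀ p ∈ P, ∃ t : ℝ, p = a + t • u) (hQ : ∀ q ∈ Q, ∃ t : ℝ, q = b + t • v)
    (hK : ((P + P).card : ℝ) ≤ K * P.card) :
    (P.card : ℝ) * min (P.card : ℝ) ((Q.card : ℝ) ^ (3 / 5 : ℝ)) ≤
      2 ^ 19 * (K ^ 6 * ((distances P Q).card : ℝ)) :=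
  OneSided.one_sided a u b v P Q K huv horth hP hQ hK

end Pool.Agent.Results.MP_d807e3_co.OneSided
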