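import Mathlib
import Pool.Agent.Lib.MP_d807e3_co.SmallDoubling

/-!
Distinct distances between points on two lines that are not parallel, when both point sets
have small doubling. The number of distances is then at least a constant times
`n ^ 2 / log n`, which is within a factor `√(log n)` of the best known construction.
-/

namespace Pool.Agent.Results.MP_d807e3_co.SmallDoubling

open Pool.Agent.MP_d807e3_co
open scoped Pointwise

/-- Let `P` and `Q` be finite sets of points on the lines `a + ℝ u` and `b + ℝ v`, which are not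
parallel, with `|P + P| ≤ K |P|` and `|Q + Q| ≤ L |Q|`. Then
`|P| |Q| ≤ 48 K ^ 4 L ^ 4 (1 + log (min |P| |Q|)) D`, where `D` is the number of distinct
distances between `P` and `Q`. -/
theorem result (a u b v : Plane) (P Q : Finset Plane) (K L : ℝ)
    (huv : LinearIndependent ℝ ![u, v])
    (hP : ∀ p ∈ P, ∃ t : ℝ, p = a + t • u) (hQ : ∀ q ∈ Q, ∃ t : ℝ, q = b + t • v)
    (hK : ((P + P).card : ℝ) ≤ K * P.card) (hL : ((Q + Q).card : ℝ) ≤ L * Q.card) :
    (P.card : ℝ) * Q.card ≤ 48 * (K ^ 4 * L ^ 4 *
      (1 + Real.log ((min P.card Q.card : ℕ) : ℝ)) * ((distances P Q).card : ℝ)) :=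
  Sol.small_doubling a u b v P Q K L huv hP hQ hK hL

end Pool.Agent.Results.MP_d807e3_co.SmallDoubling
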