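import Mathlib
import Pool.Agent.Lib.MP_d807e3_co.TR.B3

/-!
Distinct distances between two sets of `n` points on two lines: few distances force the positions
of the points to have small transcendence degree over the field generated by the cosine of the
angle of the lines.
-/

namespace Pool.Agent.Results.MP_d807e3_co.TranscendenceDegree

open Pool.Agent.MP_d807e3_co

/-- Let `u`, `v` be unit vectors that are not parallel, let `P` be `n` points of the line `o + ℝ u`
and `Q` be `n` points of the line `o + ℝ v`. If `t` of the positions (signed distances from `o`) of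
the points of `P` and `Q` are algebraically independent over the field `ℚ(⟪u, v⟫)`, then
`n * t ≤ 4300 * (D + n * (log n) ^ 2)`, where `D` is the number of distinct distances between a
point of `P` and a point of `Q`. -/
theorem result (o u v : Plane) (hu : ‖u‖ = 1) (hv : ‖v‖ = 1) (_huv : LinearIndependent ℝ ![u, v])
    (P Q : Finset Plane) (n t : ℕ) (hPn : P.card = n) (hQn : Q.card = n)
    (hP : ∀ p ∈ P, ∃ x : ℝ, p = o + x • u) (hQ : ∀ q ∈ Q, ∃ y : ℝ, q = o + y • v)
    (z : Fin t → ℝ)
    (hz : AlgebraicIndependent (IntermediateField.adjoin ℚ {(inner ℝ u v : ℝ)}) z)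
    (hzPQ : ∀ i, o + z i • u ∈ P ∨ o + z i • v ∈ Q) :
    (n : ℝ) * t ≤ 4300 * (((distances P Q).card : ℝ) + n * Real.log n ^ 2) :=
  Pool.Agent.TRD.planar o u v hu hv P Q n t hPn hQn hP hQ z hz hzPQ

end Pool.Agent.Results.MP_d807e3_co.TranscendenceDegree
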